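import Pool.Agent.H519Z.Cover.OfN

open Filter Topology

namespace Pool.Agent.H519Z.Cover

/-- A properly `4`-edge-coloured `4`-regular simple graph. -/
structure Col (X : Type) where
  s : Fin 4 → X → X
  inv : ∀ c x, s c (s c x) = x
  ne : ∀ c x, s c x ≠ x
  inj : ∀ x, Function.Injective fun c => s c x

namespace Col

variable {X : Type} [DecidableEq X] (S : Col X)

/-- neighbourhoods of the graph with a ray attached at each vertex -/
def nb : X × ℕ → Finset (X × ℕ)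
  | (x, 0) => insert (x, 1) (Finset.univ.image fun c => (S.s c x, 0))
  | (x, n + 1) => {(x, n), (x, n + 2)}

lemma mem_nb (x y : X) (m n : ℕ) : (y, m) ∈ S.nb (x, n) ↔
    (y = x ∧ (m = n + 1 ∨ n = m + 1)) ∨ (m = 0 ∧ n = 0 ∧ ∃ c, S.s c x = y) := by
  cases n with
  | zero =>
    simp only [nb, Finset.mem_insert, Prod.mk.injEq, Finset.mem_image, Finset.mem_univ, true_and]
    constructor
    · rintro (⟨h1, h2⟩ | ⟨c, h1, h2⟩)
      · exact Or.inl ⟨h1, Or.inl h2⟩
      · exact Or.inr ⟨h2.symm, c, h1⟩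
    · rintro (⟨h1, h2 | h2⟩ | ⟨h1, c, h2⟩)
      · exact Or.inl ⟨h1, h2⟩
      · omega
      · exact Or.inr ⟨c, h2, h1.symm⟩
  | succ n =>
    simp only [nb, Finset.mem_insert, Prod.mk.injEq, Finset.mem_singleton]
    constructor
    · rintro (⟨h1, h2⟩ | ⟨h1, h2⟩)
      · exact Or.inl ⟨h1, Or.inr (by omega)⟩
      · exact Or.inl ⟨h1, Or.inl (by omega)⟩
    · rintro (⟨h1, h2 | h2⟩ | ⟨h1, h2, _⟩)
      · exact Or.inr ⟨h1, by omega⟩
      · exact Or.inl ⟨h1, by omega⟩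
      · omega

/-- the graph with rays attached -/
def comb : Nb (X × ℕ) where
  N := S.nb
  symm := by
    rintro ⟨x, n⟩ ⟨y, m⟩
    rw [mem_nb, mem_nb]
    constructor
    · rintro (⟨rfl, h⟩ | ⟨h1, h2, c, rfl⟩)
      · exact Or.inl ⟨rfl, h.symm⟩
      · exact Or.inr ⟨h2, h1, c, S.inv c _⟩
    · rintro (⟨rfl, h⟩ | ⟨h1, h2, c, rfl⟩)
      · exact Or.inl ⟨rfl, h.symm⟩
      · exact Or.inr ⟨h2, h1, c, S.inv c _⟩
  irr := by
    rintro ⟨x, n⟩
    rw [mem_nb]
    rintro (⟨_, h⟩ | ⟨_, _, c, h⟩)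
    · omega
    · exact S.ne c x h

lemma sum_nb_zero {M : Type} [AddCommMonoid M] (f : X × ℕ → M) (x : X) :
    ∑ u ∈ S.nb (x, 0), f u = f (x, 1) + ∑ c, f (S.s c x, 0) := by
  rw [nb, Finset.sum_insert (by simp), Finset.sum_image]
  intro c _ d _ h
  exact S.inj x (Prod.mk.inj h).1

lemma sum_nb_succ {M : Type} [AddCommMonoid M] (f : X × ℕ → M) (x : X) (n : ℕ) :
    ∑ u ∈ S.nb (x, n + 1), f u = f (x, n) + f (x, n + 2) := by
  rw [nb, Finset.sum_pair (by simp)]

lemma card_nb (v : X × ℕ) : (S.nb v).card ≤ 5 := by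
  obtain ⟨x, n⟩ := v
  rw [Finset.card_eq_sum_ones]
  cases n with
  | zero => rw [sum_nb_zero]; simp
  | succ n => rw [sum_nb_succ]; simp

lemma covers {Y : Type} [DecidableEq Y] (T : Col Y) (π : X → Y) (hπ : Function.Surjective π)
    (he : ∀ c x, π (S.s c x) = T.s c (π x)) : S.comb.gr.Covers T.comb.gr := by
  apply Nb.covers _ _ (fun v => (π v.1, v.2))
  · rintro ⟨y, n⟩
    obtain ⟨x, rfl⟩ := hπ y
    exact ⟨(x, n), rfl⟩
  · rintro ⟨x, n⟩
    refine ⟨?_, ?_, ?_⟩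
    · rintro ⟨y, m⟩ h
      have h' := (S.mem_nb x y m n).1 h
      apply (T.mem_nb _ _ m n).2
      rcases h' with ⟨rfl, h0⟩ | ⟨h1, h2, c, rfl⟩
      · exact Or.inl ⟨rfl, h0⟩
      · exact Or.inr ⟨h1, h2, c, (he c x).symm⟩
    · rintro ⟨y, m⟩ h ⟨z, k⟩ h' hyz
      obtain ⟨h1, h2⟩ := Prod.mk.inj hyz
      dsimp only at h1 h2
      subst h2
      rcases (S.mem_nb x y m n).1 h with ⟨rfl, h0⟩ | ⟨h3, h4, c, rfl⟩ <;>
      rcases (S.mem_nb _ z m n).1 h' with ⟨rfl, h0'⟩ | ⟨h5, h6, d, rfl⟩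
      · rfl
      · omega
      · omega
      · rw [he, he] at h1
        rw [T.inj _ h1]
    · rintro ⟨y, m⟩ h
      rcases (T.mem_nb _ y m n).1 h with ⟨rfl, h0⟩ | ⟨h3, h4, c, rfl⟩
      · exact ⟨(x, m), (S.mem_nb _ _ _ _).2 (Or.inl ⟨rfl, h0⟩), rfl⟩
      · exact ⟨(S.s c x, m), (S.mem_nb _ _ _ _).2 (Or.inr ⟨h3, h4, c, rfl⟩), by simp [he]⟩

lemma connected (x₀ : X) (hc : ∀ x, Relation.ReflTransGen (fun a b => ∃ c, S.s c a = b) x₀ x) :
    S.comb.gr.Connected := by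
  have hsymm : ∀ u v, S.comb.gr.Adj u v → S.comb.gr.Adj v u := by
    intro u v h
    rw [Nb.adj_iff] at h ⊢
    exact (S.comb.symm _ _).1 h
  have h0 : ∀ x, Relation.ReflTransGen S.comb.gr.Adj (x₀, 0) (x, 0) := by
    intro x
    induction hc x with
    | refl => exact .refl
    | tail _ h ih =>
      exact ih.tail ((Nb.adj_iff _ _ _).2 ((S.mem_nb _ _ _ _).2 (Or.inr ⟨rfl, rfl, h⟩)))
  have h1 : ∀ x n, Relation.ReflTransGen S.comb.gr.Adj (x₀, 0) (x, n) := by
    intro x n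
    induction n with
    | zero => exact h0 x
    | succ n ih =>
      exact ih.tail ((Nb.adj_iff _ _ _).2 ((S.mem_nb _ _ _ _).2 (Or.inl ⟨rfl, Or.inl rfl⟩)))
  have h2 : ∀ u v, Relation.ReflTransGen S.comb.gr.Adj u v →
      Relation.ReflTransGen S.comb.gr.Adj v u := by
    intro u v h
    induction h with
    | refl => exact .refl
    | tail _ h ih => exact Relation.ReflTransGen.head (hsymm _ _ h) ih
  refine ⟨⟨(x₀, 0)⟩, ?_⟩
  rintro ⟨x, n⟩ ⟨y, m⟩
  exact (h2 _ _ (h1 x n)).trans (h1 y m)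

lemma amenable (e : ℕ → X) (he : Function.Surjective e) : S.comb.gr.Amenable := by
  let B : ℕ → Finset X := fun k => (Finset.range (k + 1)).image e
  let F : ℕ → Finset (X × ℕ) := fun k => B k ×ˢ Finset.range (k + 1)
  let D : ℕ → Finset (X × ℕ) := fun k =>
    (B k).image (fun x => (x, k + 1)) ∪
      (B k ×ˢ (Finset.univ : Finset (Fin 4))).image (fun p => (S.s p.2 p.1, 0))
  have hB : ∀ k, (B k).Nonempty := fun k => ⟨e 0, Finset.mem_image_of_mem _ (by simp)⟩
  have hsub : ∀ k, S.comb.gr.ball1 (F k) \ (F k : Set (X × ℕ)) ⊆ (D k : Set (X × ℕ)) := by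
    rintro k ⟨y, m⟩ ⟨h1, h2⟩
    rcases h1 with h1 | ⟨⟨x, n⟩, h3, h4⟩
    · exact absurd h1 h2
    · rw [Nb.adj_iff] at h4
      have h5 := (S.mem_nb _ _ _ _).1 h4
      simp only [F, Finset.coe_product, Set.mem_prod, Finset.mem_coe, Finset.mem_range] at h2 h3
      simp only [D, Finset.coe_union, Set.mem_union, Finset.mem_coe, Finset.mem_image]
      rcases h5 with ⟨rfl, h⟩ | ⟨h6, h7, c, rfl⟩
      · left
        refine ⟨y, h3.1, ?_⟩
        have : ¬ m < k + 1 := fun h => h2 ⟨h3.1, h⟩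
        have h8 := h3.2
        congr 1
        omega
      · right
        exact ⟨(x, c), by simp [h3.1], by simp [h6]⟩
  have hD : ∀ k, (D k).card ≤ 5 * (B k).card := by
    intro k
    refine (Finset.card_union_le _ _).trans ?_
    have h1 := Finset.card_image_le (s := B k) (f := fun x => (x, k + 1))
    have h2 := Finset.card_image_le (s := B k ×ˢ (Finset.univ : Finset (Fin 4)))
      (f := fun p => (S.s p.2 p.1, 0))
    rw [Finset.card_product, Finset.card_univ, Fintype.card_fin] at h2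
    omega
  refine ⟨F, ?_, ?_, ?_, ?_, ?_⟩
  · intro k l hkl
    apply Finset.product_subset_product
    · exact Finset.image_subset_image (Finset.range_mono (by omega))
    · exact Finset.range_mono (by omega)
  · intro k
    exact (hB k).product ⟨0, by simp⟩
  · rintro ⟨x, n⟩
    obtain ⟨i, rfl⟩ := he x
    refine ⟨i + n, Finset.mem_product.2 ⟨Finset.mem_image_of_mem _ ?_, ?_⟩⟩
    · simp
    · simp
  · intro k
    exact (D k).finite_toSet.subset (hsub k)
  · have hlim : Tendsto (fun k : ℕ => (5 : ℝ) * (1 / ((k : ℝ) + 1))) atTop (𝓝 (5 * 0)) :=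
      tendsto_one_div_add_atTop_nhds_zero_nat.const_mul 5
    rw [mul_zero] at hlim
    refine squeeze_zero (fun k => by positivity) (fun k => ?_) hlim
    have h1 : (S.comb.gr.ball1 (F k) \ (F k : Set (X × ℕ))).ncard ≤ 5 * (B k).card := by
      refine (Set.ncard_le_ncard (hsub k) (D k).finite_toSet).trans ?_
      rw [Set.ncard_coe_finset]
      exact hD k
    have h2 : (F k).card = (B k).card * (k + 1) := by
      simp [F, Finset.card_product]
    have h3 : (0 : ℝ) < (B k).card := by exact_mod_cast (hB k).card_pos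
    have h1' : ((S.comb.gr.ball1 (F k) \ (F k : Set (X × ℕ))).ncard : ℝ) ≤ 5 * (B k).card := by
      exact_mod_cast h1
    rw [h2, div_le_iff₀ (by push_cast; positivity)]
    refine h1'.trans (le_of_eq ?_)
    push_cast
    field_simp

lemma eigen [Fintype X] [Nonempty X]
    (H : lp (fun _ : X × ℕ => ℂ) 2 →L[ℂ] lp (fun _ : X × ℕ => ℂ) 2)
    (hH : ∀ f v, H f v = ∑ u ∈ S.nb v, f u) : (17 / 4 : ℂ) ∈ spectrum ℂ H := by
  have hmem : Memℓp (fun v : X × ℕ => (1 / 4 : ℂ) ^ v.2) 2 := by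
    apply memℓp_gen
    have h1 : Summable (fun n : ℕ => (1 / 16 : ℝ) ^ n) :=
      summable_geometric_of_lt_one (by norm_num) (by norm_num)
    have h2 : Summable (fun v : X × ℕ => (1 / 16 : ℝ) ^ v.2) := by
      rw [summable_prod_of_nonneg (fun v => by positivity)]
      exact ⟨fun _ => h1, Summable.of_finite⟩
    refine h2.congr (fun v => ?_)
    have : (2 : ENNReal).toReal = ((2 : ℕ) : ℝ) := by norm_num
    rw [this, Real.rpow_natCast, norm_pow, ← pow_mul, mul_comm, pow_mul]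
    norm_num
  let f : lp (fun _ : X × ℕ => ℂ) 2 := ⟨_, hmem⟩
  have hf : ∀ v, f v = (1 / 4 : ℂ) ^ v.2 := fun v => rfl
  have hHf : H f = (17 / 4 : ℂ) • f := by
    ext ⟨x, n⟩
    rw [hH, lp.coeFn_smul, Pi.smul_apply, hf]
    cases n with
    | zero => rw [sum_nb_zero]; simp [hf]; norm_num
    | succ n => rw [sum_nb_succ, hf, hf]; simp only [smul_eq_mul]; ring
  rw [spectrum.mem_iff]
  rintro ⟨u, hu⟩
  have h1 : (u : lp (fun _ : X × ℕ => ℂ) 2 →L[ℂ] lp (fun _ : X × ℕ => ℂ) 2) f = 0 := by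
    rw [hu, ContinuousLinearMap.sub_apply, hHf, Algebra.algebraMap_eq_smul_one]
    simp
  have h2 : f = 0 := by
    have h3 : ((u⁻¹ : Units _) : lp (fun _ : X × ℕ => ℂ) 2 →L[ℂ] lp (fun _ : X × ℕ => ℂ) 2)
        ((u : lp (fun _ : X × ℕ => ℂ) 2 →L[ℂ] lp (fun _ : X × ℕ => ℂ) 2) f) = f := by
      rw [← ContinuousLinearMap.mul_apply, Units.inv_mul, ContinuousLinearMap.one_apply]
    rw [← h3, h1, map_zero]
  have h4 := hf (Classical.arbitrary X, 0)
  rw [h2] at h4
  simp at h4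

end Col

end Pool.Agent.H519Z.Cover
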