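import Mathlib

/-!
Weighted multigraphs, coverings, amenability and Laplace type operators.
-/

open Filter Topology

namespace Pool.Agent.H519Z.Cover

/-- An undirected graph with multiple edges and loops allowed: every edge `e` has an unordered
pair `ends e` of endpoints (a loop has `ends e = s(v, v)`), and `wt v e` is the weight
`α_{v,e}` (only its values on incident pairs `(v, e)` are used). -/
structure WGraph where
  V : Type
  E : Type
  ends : E → Sym2 V
  wt : V → E → ℂ

/-- The complex Hilbert space `ℓ²(V)`. -/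
abbrev L2 (V : Type) : Type := lp (fun _ : V => ℂ) 2

/-- The bounded operators on `ℓ²(V)`. -/
abbrev Op (V : Type) : Type := L2 V →L[ℂ] L2 V

namespace WGraph

/-- `E_v`: the set of edges at `v` (a loop at `v` counts once). -/
def inc (G : WGraph) (v : G.V) : Set G.E := {e | v ∈ G.ends e}

open Classical in
/-- `r_v(e)`: the other endpoint of an edge `e` at `v` (equal to `v` for a loop). -/
noncomputable def other (G : WGraph) (v : G.V) (e : G.E) : G.V :=
  if h : v ∈ G.ends e then Sym2.Mem.other h else v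

/-- Two vertices are adjacent if some edge joins them. -/
def Adj (G : WGraph) (u v : G.V) : Prop := ∃ e, G.ends e = s(u, v)

/-- Degrees uniformly bounded and weights uniformly bounded. -/
def UnifBounded (G : WGraph) : Prop :=
  (∃ D : ℕ, ∀ v, (G.inc v).Finite ∧ (G.inc v).ncard ≤ D) ∧
    ∃ C : ℝ, ∀ v, ∀ e ∈ G.inc v, ‖G.wt v e‖ ≤ C

/-- The graph is nonempty and any two vertices are joined by a path. -/
def Connected (G : WGraph) : Prop :=
  Nonempty G.V ∧ ∀ u v, Relation.ReflTransGen G.Adj u v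

/-- `B_1(A)`: the vertices at graph distance at most `1` from `A`. -/
def ball1 (G : WGraph) (A : Set G.V) : Set G.V := {v | v ∈ A ∨ ∃ u ∈ A, G.Adj u v}

/-- There are nonempty finite vertex sets `F_0 ⊆ F_1 ⊆ ⋯` exhausting `V` with
`|B_1(F_k) \ F_k| / |F_k| → 0`. -/
def Amenable (G : WGraph) : Prop :=
  ∃ F : ℕ → Finset G.V, Monotone F ∧ (∀ k, (F k).Nonempty) ∧ (∀ v, ∃ k, v ∈ F k) ∧
    (∀ k, (G.ball1 (F k) \ (F k : Set G.V)).Finite) ∧
    Tendsto (fun k => ((G.ball1 (F k) \ (F k : Set G.V)).ncard : ℝ) / ((F k).card : ℝ))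
      atTop (𝓝 0)

/-- `G₁` covers `G₂` as weighted graphs: surjections on vertices and on edges that respect
incidence, map `E_v` bijectively onto `E_{φ v}`, and preserve the weights. -/
def Covers (G₁ G₂ : WGraph) : Prop :=
  ∃ (φ : G₁.V → G₂.V) (ψ : G₁.E → G₂.E),
    Function.Surjective φ ∧ Function.Surjective ψ ∧
    (∀ e, G₂.ends (ψ e) = (G₁.ends e).map φ) ∧
    (∀ v, Set.BijOn ψ (G₁.inc v) (G₂.inc (φ v))) ∧
    ∀ v, ∀ e ∈ G₁.inc v, G₁.wt v e = G₂.wt (φ v) (ψ e)

/-- `H` is the Laplace type operator of `G` on `ℓ²(V)`: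
`(H f)(v) = ∑_{e ∈ E_v} α_{v,e} f(r_v(e))` for all `f` and `v`. -/
def IsLaplace (G : WGraph) (H : Op G.V) : Prop :=
  ∀ (f : L2 G.V) (v : G.V),
    H f v = ∑ᶠ e ∈ G.inc v, G.wt v e * f (G.other v e)

/-- No loops, no multiple edges, and all weights equal to `1`
(so that the Laplace type operator is the adjacency operator of a simple graph). -/
def SimpleUnweighted (G : WGraph) : Prop :=
  (∀ e, ¬ (G.ends e).IsDiag) ∧ Function.Injective G.ends ∧ ∀ v e, G.wt v e = 1

end WGraph

end Pool.Agent.H519Z.Cover
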