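import Pool.Agent.H519Z.Cover.Schur

open Filter Topology

namespace Pool.Agent.H519Z.Cover

/-- Neighbourhood data of a locally finite simple graph. -/
structure Nb (V : Type) where
  N : V → Finset V
  symm : ∀ u v, u ∈ N v ↔ v ∈ N u
  irr : ∀ v, v ∉ N v

namespace Nb

variable {V : Type} (A : Nb V)

/-- The unweighted simple graph with the given neighbourhoods. -/
@[reducible] def gr : WGraph where
  V := V
  E := {e : Sym2 V // ∃ u v, e = s(u, v) ∧ v ∈ A.N u}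
  ends := Subtype.val
  wt := fun _ _ => 1

lemma mem_of_eq {u v a b : V} (h : s(u, v) = s(a, b)) (hb : b ∈ A.N a) : v ∈ A.N u := by
  rcases Sym2.eq_iff.1 h with ⟨rfl, rfl⟩ | ⟨rfl, rfl⟩
  · exact hb
  · exact (A.symm _ _).1 hb

lemma adj_iff (u v : V) : A.gr.Adj u v ↔ v ∈ A.N u := by
  constructor
  · rintro ⟨⟨e, a, b, rfl, hb⟩, h⟩
    exact A.mem_of_eq h.symm hb
  · intro h
    exact ⟨⟨s(u, v), u, v, rfl, h⟩, rfl⟩

lemma ends_eq (v : V) (e : A.gr.E) (he : e ∈ A.gr.inc v) :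
    A.gr.ends e = s(v, A.gr.other v e) := by
  have he' : v ∈ A.gr.ends e := he
  unfold WGraph.other
  rw [dif_pos he']
  exact (Sym2.other_spec he').symm

lemma other_mem (v : V) (e : A.gr.E) (he : e ∈ A.gr.inc v) : A.gr.other v e ∈ A.N v := by
  rw [← A.adj_iff]
  exact ⟨e, A.ends_eq v e he⟩

lemma bijOn_other (v : V) : Set.BijOn (A.gr.other v) (A.gr.inc v) (A.N v : Set V) := by
  refine ⟨fun e he => A.other_mem v e he, ?_, ?_⟩
  · intro e he e' he' h
    apply Subtype.ext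
    have h1 := A.ends_eq v e he
    have h2 := A.ends_eq v e' he'
    change A.gr.ends e = A.gr.ends e'
    rw [h1, h2, h]
  · intro u hu
    have hu' : u ∈ A.N v := hu
    let e : A.gr.E := ⟨s(v, u), v, u, rfl, hu'⟩
    have he : e ∈ A.gr.inc v := Sym2.mem_mk_left v u
    refine ⟨e, he, ?_⟩
    have h1 : s(v, u) = s(v, A.gr.other v e) := A.ends_eq v e he
    exact (Sym2.congr_right.1 h1).symm

lemma simple : A.gr.SimpleUnweighted := by
  refine ⟨?_, Subtype.val_injective, fun _ _ => rfl⟩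
  rintro ⟨e, a, b, rfl, hb⟩ h
  have h' : a = b := Sym2.mk_isDiag_iff.1 h
  subst h'
  exact A.irr a hb

lemma bounded (D : ℕ) (hD : ∀ v, (A.N v).card ≤ D) : A.gr.UnifBounded := by
  refine ⟨⟨D, fun v => ?_⟩, 1, fun v e _ => by simp [gr]⟩
  have hb := A.bijOn_other v
  have hfin : (A.gr.inc v).Finite :=
    Set.Finite.of_finite_image (hb.image_eq ▸ (A.N v).finite_toSet) hb.injOn
  refine ⟨hfin, ?_⟩
  rw [hb.ncard_eq]
  simpa using hD v

lemma isLaplace (H : lp (fun _ : V => ℂ) 2 →L[ℂ] lp (fun _ : V => ℂ) 2)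
    (hH : ∀ f v, H f v = ∑ u ∈ A.N v, f u) : A.gr.IsLaplace H := by
  intro f v
  have h1 : ∑ᶠ e ∈ A.gr.inc v, A.gr.wt v e * f (A.gr.other v e) =
      ∑ᶠ u ∈ (A.N v : Set V), f u :=
    finsum_mem_eq_of_bijOn (A.gr.other v) (A.bijOn_other v) (fun e _ => one_mul _)
  rw [h1, finsum_mem_coe_finset]
  exact hH f v

lemma covers {W : Type} (B : Nb W) (π : V → W) (hπ : Function.Surjective π)
    (hb : ∀ v, Set.BijOn π (A.N v : Set V) (B.N (π v) : Set W)) : A.gr.Covers B.gr := by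
  let ψ : A.gr.E → B.gr.E := fun e => ⟨e.1.map π, by
    obtain ⟨e, a, b, rfl, hab⟩ := e
    exact ⟨π a, π b, rfl, (hb a).mapsTo hab⟩⟩
  have hψ : ∀ e, B.gr.ends (ψ e) = (A.gr.ends e).map π := fun e => rfl
  have hbij : ∀ v, Set.BijOn ψ (A.gr.inc v) (B.gr.inc (π v)) := by
    intro v
    refine ⟨?_, ?_, ?_⟩
    · intro e he
      change π v ∈ B.gr.ends (ψ e)
      rw [hψ, A.ends_eq v e he]
      exact Sym2.mem_mk_left _ _
    · intro e he e' he' h
      have h1 := congrArg B.gr.ends h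
      rw [hψ, hψ, A.ends_eq v e he, A.ends_eq v e' he'] at h1
      have h2 : π (A.gr.other v e) = π (A.gr.other v e') := Sym2.congr_right.1 h1
      have h3 := (hb v).injOn (A.other_mem v e he) (A.other_mem v e' he') h2
      exact (A.bijOn_other v).injOn he he' h3
    · intro e he
      obtain ⟨u, hu, hu'⟩ := (hb v).surjOn (B.other_mem (π v) e he)
      obtain ⟨e', he', rfl⟩ := (A.bijOn_other v).surjOn hu
      refine ⟨e', he', Subtype.ext ?_⟩
      change B.gr.ends (ψ e') = B.gr.ends e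
      rw [hψ, A.ends_eq v e' he', B.ends_eq (π v) e he, ← hu']
      rfl
  refine ⟨π, ψ, hπ, ?_, hψ, hbij, fun _ _ _ => rfl⟩
  rintro ⟨e, a, b, rfl, hab⟩
  obtain ⟨v, rfl⟩ := hπ a
  obtain ⟨e', _, h⟩ := (hbij v).surjOn (show (⟨s(π v, b), π v, b, rfl, hab⟩ : B.gr.E) ∈
    B.gr.inc (π v) from Sym2.mem_mk_left _ _)
  exact ⟨e', h⟩

end Nb

end Pool.Agent.H519Z.Cover
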