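import Pool.Agent.H519Z.Cover.Defs

open Filter Topology

namespace Pool.Agent.H519Z.Cover

section Schur

variable {V : Type} (N : V → Finset V) (hN : ∀ u v, u ∈ N v ↔ v ∈ N u)
  (φ : V → ℝ) (hφ : ∀ v, 0 < φ v) (C : ℝ) (hC : 0 ≤ C) (hS : ∀ v, ∑ u ∈ N v, φ u ≤ C * φ v)

include hφ hS in
lemma schur_pt (f : V → ℂ) (v : V) :
    ‖∑ u ∈ N v, f u‖ ^ 2 ≤ C * φ v * ∑ u ∈ N v, ‖f u‖ ^ 2 / φ u := by
  have h1 : ‖∑ u ∈ N v, f u‖ ≤ ∑ u ∈ N v, ‖f u‖ := norm_sum_le _ _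
  have h2 : (∑ u ∈ N v, ‖f u‖) ^ 2 ≤ (∑ u ∈ N v, φ u) * ∑ u ∈ N v, ‖f u‖ ^ 2 / φ u := by
    apply Finset.sum_sq_le_sum_mul_sum_of_sq_le_mul
    · intro i _; exact (hφ i).le
    · intro i _; exact div_nonneg (sq_nonneg _) (hφ i).le
    · intro i _; have := (hφ i).ne'; apply le_of_eq; field_simp
  have h3 : 0 ≤ ∑ u ∈ N v, ‖f u‖ ^ 2 / φ u :=
    Finset.sum_nonneg fun i _ => div_nonneg (sq_nonneg _) (hφ i).le
  calc ‖∑ u ∈ N v, f u‖ ^ 2 ≤ (∑ u ∈ N v, ‖f u‖) ^ 2 := by gcongr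
    _ ≤ _ := h2
    _ ≤ _ := mul_le_mul_of_nonneg_right (hS v) h3

include hN hφ hC hS in
lemma schur_fin (f : lp (fun _ : V => ℂ) 2) (S : Finset V) :
    ∑ v ∈ S, ‖∑ u ∈ N v, f u‖ ^ 2 ≤ (C * ‖f‖) ^ 2 := by
  classical
  set T := S.biUnion N with hT
  have h1 : ∑ v ∈ S, ‖∑ u ∈ N v, f u‖ ^ 2 ≤
      ∑ v ∈ S, ∑ u ∈ T, if u ∈ N v then C * φ v * (‖f u‖ ^ 2 / φ u) else 0 := by
    apply Finset.sum_le_sum
    intro v hv
    refine (schur_pt N φ hφ C hS f v).trans (le_of_eq ?_)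
    rw [Finset.mul_sum, ← Finset.sum_filter]
    apply Finset.sum_congr _ (fun _ _ => rfl)
    ext u
    simp only [Finset.mem_filter, hT, Finset.mem_biUnion]
    exact ⟨fun h => ⟨⟨v, hv, h⟩, h⟩, fun h => h.2⟩
  have h2 : ∀ u ∈ T, (∑ v ∈ S, if u ∈ N v then C * φ v * (‖f u‖ ^ 2 / φ u) else 0) ≤
      C ^ 2 * ‖f u‖ ^ 2 := by
    intro u _
    rw [← Finset.sum_filter]
    have h0 : 0 ≤ ‖f u‖ ^ 2 / φ u := div_nonneg (sq_nonneg _) (hφ u).le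
    calc ∑ v ∈ S.filter (fun v => u ∈ N v), C * φ v * (‖f u‖ ^ 2 / φ u)
        ≤ ∑ v ∈ N u, C * φ v * (‖f u‖ ^ 2 / φ u) := by
          apply Finset.sum_le_sum_of_subset_of_nonneg
          · intro v hv
            exact (hN u v).1 (Finset.mem_filter.1 hv).2
          · intro v _ _
            exact mul_nonneg (mul_nonneg hC (hφ v).le) h0
      _ = C * (∑ v ∈ N u, φ v) * (‖f u‖ ^ 2 / φ u) := by
          rw [Finset.mul_sum, Finset.sum_mul]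
      _ ≤ C * (C * φ u) * (‖f u‖ ^ 2 / φ u) := by
          gcongr
          exact hS u
      _ = C ^ 2 * ‖f u‖ ^ 2 := by
          have := (hφ u).ne'; field_simp
  have h3 : ∑ u ∈ T, ‖f u‖ ^ 2 ≤ ‖f‖ ^ 2 := by
    have := lp.sum_rpow_le_norm_rpow (p := 2) (by norm_num) f T
    simpa using this
  calc _ ≤ _ := h1
    _ = ∑ u ∈ T, ∑ v ∈ S, if u ∈ N v then C * φ v * (‖f u‖ ^ 2 / φ u) else 0 := Finset.sum_comm
    _ ≤ ∑ u ∈ T, C ^ 2 * ‖f u‖ ^ 2 := Finset.sum_le_sum h2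
    _ = C ^ 2 * ∑ u ∈ T, ‖f u‖ ^ 2 := by rw [Finset.mul_sum]
    _ ≤ C ^ 2 * ‖f‖ ^ 2 := by gcongr
    _ = (C * ‖f‖) ^ 2 := by ring

include hN hφ hC hS in
lemma schur_mem (f : lp (fun _ : V => ℂ) 2) : Memℓp (fun v => ∑ u ∈ N v, f u) 2 := by
  apply memℓp_gen' (C := (C * ‖f‖) ^ 2)
  intro S
  have := schur_fin N hN φ hφ C hC hS f S
  simpa using this

include hN hφ hC hS in
lemma exists_op : ∃ H : lp (fun _ : V => ℂ) 2 →L[ℂ] lp (fun _ : V => ℂ) 2,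
    ‖H‖ ≤ C ∧ ∀ f v, H f v = ∑ u ∈ N v, f u := by
  let L : lp (fun _ : V => ℂ) 2 →ₗ[ℂ] lp (fun _ : V => ℂ) 2 :=
    { toFun := fun f => ⟨fun v => ∑ u ∈ N v, f u, schur_mem N hN φ hφ C hC hS f⟩
      map_add' := by
        intro f g
        ext v
        simp [Finset.sum_add_distrib]
      map_smul' := by
        intro c f
        ext v
        simp [Finset.mul_sum] }
  have hL : ∀ f, ‖L f‖ ≤ C * ‖f‖ := by
    intro f
    apply lp.norm_le_of_forall_sum_le (p := 2) (by norm_num) (by positivity)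
    intro S
    have := schur_fin N hN φ hφ C hC hS f S
    simpa [L] using this
  exact ⟨L.mkContinuous C hL, L.mkContinuous_norm_le hC hL, fun f v => rfl⟩

end Schur

end Pool.Agent.H519Z.Cover
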