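import Pool.Agent.H519Z.Cover.Comb

open Filter Topology

namespace Pool.Agent.H519Z.Cover

/-- reduced words in the free product of four groups of order two -/
abbrev W : Type := {w : List (Fin 4) // w.IsChain (· ≠ ·)}

/-- left multiplication by a generator, on lists -/
def stepL (c : Fin 4) : List (Fin 4) → List (Fin 4)
  | [] => [c]
  | d :: w => if d = c then w else c :: d :: w

lemma stepL_chain (c : Fin 4) (w : List (Fin 4)) (h : w.IsChain (· ≠ ·)) :
    (stepL c w).IsChain (· ≠ ·) := by
  cases w with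
  | nil => simp [stepL]
  | cons d w =>
    simp only [stepL]
    split_ifs with hd
    · exact h.tail
    · exact List.IsChain.cons_cons (fun h' => hd h'.symm) h

def step (c : Fin 4) (w : W) : W := ⟨stepL c w.1, stepL_chain c w.1 w.2⟩

lemma stepL_length (c : Fin 4) (w : List (Fin 4)) :
    (stepL c w).length = if w.head? = some c then w.length - 1 else w.length + 1 := by
  cases w with
  | nil => simp [stepL]
  | cons d w =>
    simp only [stepL, List.head?_cons, Option.some.injEq]
    split_ifs <;> simp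

def tree : Col W where
  s := step
  inv := by
    rintro c ⟨w, hw⟩
    apply Subtype.ext
    change stepL c (stepL c w) = w
    rcases w with _ | ⟨d, w⟩
    · simp [stepL]
    · by_cases hd : d = c
      · subst hd
        rcases w with _ | ⟨e, w⟩
        · simp [stepL]
        · have : e ≠ d := fun h => (List.isChain_cons_cons.1 hw).1 h.symm
          simp [stepL, this]
      · simp [stepL, hd]
  ne := by
    rintro c ⟨w, hw⟩ h
    have h1 : (stepL c w).length = w.length := congrArg (fun x : W => x.1.length) h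
    rcases w with _ | ⟨d, w⟩
    · simp [stepL] at h1
    · rw [stepL_length] at h1
      split_ifs at h1 <;> simp at h1
  inj := by
    rintro ⟨w, hw⟩ c d h
    have h1 : stepL c w = stepL d w := congrArg Subtype.val h
    rcases w with _ | ⟨e, w⟩
    · simpa [stepL] using h1
    · simp only [stepL] at h1
      split_ifs at h1 with h2 h3 h3
      · rw [← h2, ← h3]
      · have := congrArg List.length h1
        simp at this
        omega
      · have := congrArg List.length h1
        simp at this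
        omega
      · exact (List.cons.inj h1).1

/-- the four-dimensional cube -/
def cube : Col (Fin 4 → ZMod 2) where
  s := fun c x => x + Pi.single c 1
  inv := by decide
  ne := by decide
  inj := by decide

def piL : List (Fin 4) → (Fin 4 → ZMod 2)
  | [] => 0
  | d :: w => piL w + Pi.single d 1

def proj (w : W) : Fin 4 → ZMod 2 := piL w.1

lemma proj_step (c : Fin 4) (w : W) : proj (tree.s c w) = cube.s c (proj w) := by
  obtain ⟨w, hw⟩ := w
  change piL (stepL c w) = piL w + Pi.single c 1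
  rcases w with _ | ⟨d, w⟩
  · rfl
  · simp only [stepL]
    split_ifs with h
    · subst h
      exact (cube.inv d (piL w)).symm
    · rfl

lemma proj_surj : Function.Surjective proj := by
  have h0 : ∀ y : Fin 4 → ZMod 2, ∃ l ∈ ([0, 1, 2, 3] : List (Fin 4)).sublists,
      l.IsChain (· ≠ ·) ∧ piL l = y := by decide
  intro y
  obtain ⟨l, _, h1, h2⟩ := h0 y
  exact ⟨⟨l, h1⟩, h2⟩

def root : W := ⟨[], List.IsChain.nil⟩

lemma tree_conn (x : W) : Relation.ReflTransGen (fun a b => ∃ c, tree.s c a = b) root x := by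
  obtain ⟨w, hw⟩ := x
  induction w with
  | nil => exact .refl
  | cons d w ih =>
    refine (ih hw.tail).tail ⟨d, Subtype.ext ?_⟩
    change stepL d w = d :: w
    rcases w with _ | ⟨e, w⟩
    · rfl
    · have : e ≠ d := fun h => (List.isChain_cons_cons.1 hw).1 h.symm
      simp [stepL, this]

lemma tree_op : ∃ H : lp (fun _ : W × ℕ => ℂ) 2 →L[ℂ] lp (fun _ : W × ℕ => ℂ) 2,
    ‖H‖ ≤ 4 ∧ ∀ f v, H f v = ∑ u ∈ tree.nb v, f u := by
  apply exists_op tree.nb tree.comb.symm (fun v => (1 / 2 : ℝ) ^ (v.1.1.length + v.2))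
    (fun v => by positivity) 4 (by norm_num)
  rintro ⟨⟨w, hw⟩, n⟩
  cases n with
  | succ n =>
    rw [Col.sum_nb_succ]
    dsimp only
    have : (0 : ℝ) < (1 / 2 : ℝ) ^ (w.length + n) := by positivity
    rw [← add_assoc, ← add_assoc, pow_succ, pow_succ]
    nlinarith
  | zero =>
    rw [Col.sum_nb_zero]
    change (1 / 2 : ℝ) ^ (w.length + 1) + ∑ c, (1 / 2 : ℝ) ^ ((stepL c w).length + 0) ≤
      4 * (1 / 2 : ℝ) ^ (w.length + 0)
    rcases w with _ | ⟨d, w⟩
    · simp [stepL]; norm_num
    · have h1 : ∀ c, (1 / 2 : ℝ) ^ ((stepL c (d :: w)).length + 0) =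
          (1 / 2 : ℝ) ^ w.length * (1 / 4 + if c = d then 3 / 4 else 0) := by
        intro c
        simp only [stepL]
        by_cases h : d = c
        · subst h; simp; norm_num
        · have h' : ¬ c = d := fun h'' => h h''.symm
          simp only [h, h', if_false, List.length_cons, add_zero, pow_succ]
          ring
      rw [Finset.sum_congr rfl (fun c _ => h1 c), ← Finset.mul_sum, Finset.sum_add_distrib]
      simp only [List.length_cons, add_zero, pow_succ, Finset.sum_const, Finset.card_univ,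
        Fintype.card_fin, Finset.sum_ite_eq', Finset.mem_univ, if_true]
      have : (0 : ℝ) < (1 / 2 : ℝ) ^ w.length := by positivity
      norm_num
      nlinarith

theorem main : ∃ (G₁ G₂ : WGraph) (H₁ : Op G₁.V) (H₂ : Op G₂.V) (z : ℂ),
    G₁.UnifBounded ∧ G₁.Connected ∧ G₁.Amenable ∧ G₂.UnifBounded ∧ G₁.Covers G₂ ∧
    G₁.SimpleUnweighted ∧ G₂.SimpleUnweighted ∧ G₁.IsLaplace H₁ ∧ G₂.IsLaplace H₂ ∧
    z ∈ spectrum ℂ H₂ ∧ z ∉ spectrum ℂ H₁ := by
  obtain ⟨H₁, hn, hH₁⟩ := tree_op
  obtain ⟨H₂, -, hH₂⟩ := exists_op cube.nb cube.comb.symm (fun _ => 1) (fun _ => one_pos) 5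
    (by norm_num) (fun v => by
      have := cube.card_nb v
      simp only [Finset.sum_const, nsmul_eq_mul, mul_one]
      exact_mod_cast this)
  haveI : Nonempty W := ⟨root⟩
  obtain ⟨e, he⟩ := exists_surjective_nat W
  refine ⟨tree.comb.gr, cube.comb.gr, H₁, H₂, 17 / 4, Nb.bounded _ 5 tree.card_nb,
    tree.connected root tree_conn, tree.amenable e he, Nb.bounded _ 5 cube.card_nb,
    tree.covers cube proj proj_surj proj_step, Nb.simple _, Nb.simple _,
    Nb.isLaplace _ H₁ hH₁, Nb.isLaplace _ H₂ hH₂, cube.eigen H₂ hH₂, ?_⟩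
  intro hz
  have h1 := spectrum.norm_le_norm_mul_of_mem hz
  have h2 : ‖(1 : lp (fun _ : W × ℕ => ℂ) 2 →L[ℂ] lp (fun _ : W × ℕ => ℂ) 2)‖ ≤ 1 :=
    ContinuousLinearMap.norm_id_le
  have h3 : ‖(17 / 4 : ℂ)‖ = 17 / 4 := by norm_num
  have h4 : ‖H₁‖ * ‖(1 : lp (fun _ : W × ℕ => ℂ) 2 →L[ℂ] lp (fun _ : W × ℕ => ℂ) 2)‖ ≤ 4 * 1 :=
    mul_le_mul hn h2 (norm_nonneg _) (by norm_num)
  rw [h3] at h1
  linarith

end Pool.Agent.H519Z.Cover
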